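import Pool.Agent.H379R3.CDQ.Stmts

set_option autoImplicit false

/-! Project H379-CDQ, task H1 (helper195). -/

namespace Pool.Agent.H195R3.CDQH1

open Pool.Agent.H379R3.CDQ

/-- the trivial action -/
@[reducible] def triv (G : Type) [Group G] : DistribMulAction G (ZMod 2) where
  smul := fun _ x => x
  one_smul := fun _ => rfl
  mul_smul := fun _ _ _ => rfl
  smul_zero := fun _ => rfl
  smul_add := fun _ _ _ => rfl

theorem _root_.Pool.Agent.H379R3.CDQ.taskH1 : TaskH1 := by
  classical
  intro k _ _ d hd hcd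
  have h2 : (2 : SeparableClosure k) = 0 := by
    have : (2 : k) = 0 := by exact_mod_cast CharP.cast_eq_zero k 2
    have h3 := congrArg (algebraMap k (SeparableClosure k)) this
    rwa [map_ofNat, map_zero] at h3
  obtain ⟨α, hα⟩ := IsSepClosed.exists_root_C_mul_X_pow_add_C_mul_X_add_C (k := SeparableClosure k)
    (n := 2) 1 1 (-algebraMap k (SeparableClosure k) d) (by simpa using h2) le_rfl one_ne_zero
  have hα' : α ^ 2 + α = algebraMap k (SeparableClosure k) d := by linear_combination hα
  -- the two conjugates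
  have hconj : ∀ σ : GG k, σ α = α ∨ σ α = α + 1 := by
    intro σ
    have h3 : (σ α) ^ 2 + σ α = algebraMap k (SeparableClosure k) d := by
      have := congrArg σ hα'
      rwa [map_add, map_pow, AlgEquiv.commutes] at this
    have h4 : (σ α - α) * (σ α - (α + 1)) = 0 := by
      linear_combination h3 - hα' + (α ^ 2 - σ α * α + α - σ α) * h2
    rcases mul_eq_zero.1 h4 with h | h
    · left; exact sub_eq_zero.1 h
    · right; exact sub_eq_zero.1 h
  obtain ⟨χ, hχ0, hχ1⟩ : ∃ χ : GG k → ZMod 2, (∀ σ : GG k, σ α = α → χ σ = 0) ∧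
      (∀ σ : GG k, σ α ≠ α → χ σ = 1) :=
    ⟨fun σ => if σ α = α then 0 else 1, fun σ h => if_pos h, fun σ h => if_neg h⟩
  have h01 : (1 : ZMod 2) ≠ 0 := by decide
  have hne : α + 1 ≠ α := by
    intro h
    have : (1 : SeparableClosure k) = 0 := by linear_combination h
    exact one_ne_zero this
  have hmul : ∀ σ τ : GG k, χ (σ * τ) = χ σ + χ τ := by
    intro σ τ
    have e : (σ * τ) α = σ (τ α) := rfl
    rcases hconj τ with ht | ht <;> rcases hconj σ with hs | hs
    · have e1 : (σ * τ) α = α := by rw [e, ht, hs]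
      rw [hχ0 _ e1, hχ0 _ hs, hχ0 _ ht, add_zero]
    · have e1 : (σ * τ) α = α + 1 := by rw [e, ht, hs]
      rw [hχ1 _ (e1 ▸ hne), hχ1 _ (hs ▸ hne), hχ0 _ ht, add_zero]
    · have e1 : (σ * τ) α = α + 1 := by rw [e, ht, map_add, map_one, hs]
      rw [hχ1 _ (e1 ▸ hne), hχ0 _ hs, hχ1 _ (ht ▸ hne), zero_add]
    · have e1 : (σ * τ) α = α := by
        rw [e, ht, map_add, map_one, hs]
        linear_combination h2
      rw [hχ0 _ e1, hχ1 _ (hs ▸ hne), hχ1 _ (ht ▸ hne)]
      decide
  let act : DistribMulAction (GG k) (ZMod 2) := triv (GG k)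
  have hsm : ∀ (g : GG k) (x : ZMod 2), g • x = x := fun _ _ => rfl
  have hdisc : IsDisc (GG k) (ZMod 2) := by
    intro x
    have : (MulAction.stabilizer (GG k) x : Set (GG k)) = Set.univ := by
      ext g
      simp [MulAction.mem_stabilizer_iff, hsm]
    rw [this]
    exact isOpen_univ
  have htors : ∀ x : ZMod 2, ∃ m : ℕ, 0 < m ∧ m • x = 0 := by
    intro x
    refine ⟨2, by norm_num, ?_⟩
    revert x
    decide
  have hv := hcd (ZMod 2) hdisc htors 1 Nat.zero_lt_one
  let f : (Fin 2 → GG k) → ZMod 2 := fun v => χ ((v 0)⁻¹ * v 1)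
  have hstab : IsOpen (MulAction.stabilizer (GG k) α : Set (GG k)) :=
    stabilizer_isOpen_of_isIntegral α
  have hχlc : IsLocallyConstant χ := by
    rw [IsLocallyConstant.iff_isOpen_fiber]
    intro y
    have hcl : IsClosed (MulAction.stabilizer (GG k) α : Set (GG k)) :=
      Subgroup.isClosed_of_isOpen _ hstab
    have hmem : ∀ σ : GG k, σ ∈ (MulAction.stabilizer (GG k) α : Set (GG k)) ↔ σ α = α :=
      fun σ => Iff.rfl
    by_cases hy0 : y = 0
    · have : χ ⁻¹' {y} = (MulAction.stabilizer (GG k) α : Set (GG k)) := by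
        ext σ
        rw [hmem, Set.mem_preimage, Set.mem_singleton_iff, hy0]
        by_cases h : σ α = α
        · exact ⟨fun _ => h, fun _ => hχ0 _ h⟩
        · rw [hχ1 _ h]
          exact ⟨fun h' => absurd h' h01, fun h' => absurd h' h⟩
      rw [this]; exact hstab
    · by_cases hy1 : y = 1
      · have : χ ⁻¹' {y} = (MulAction.stabilizer (GG k) α : Set (GG k))ᶜ := by
          ext σ
          rw [Set.mem_compl_iff, hmem, Set.mem_preimage, Set.mem_singleton_iff, hy1]
          by_cases h : σ α = α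
          · rw [hχ0 _ h]
            exact ⟨fun h' => absurd h'.symm h01, fun h' => absurd h h'⟩
          · exact ⟨fun _ => h, fun _ => hχ1 _ h⟩
        rw [this]; exact hcl.isOpen_compl
      · exfalso
        revert y
        decide
  have hf1 : IsLocallyConstant f := by
    refine hχlc.comp_continuous (f := fun v : Fin 2 → GG k => (v 0)⁻¹ * v 1) ?_
    exact (continuous_apply 0).inv.mul (continuous_apply 1)
  have hf2 : Eqv f := by
    intro g v
    rw [hsm]
    simp only [f]
    congr 1
    group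
  have hf3 : ∀ v : Fin 3 → GG k, dd f v = 0 := by
    intro v
    have e1 : dd f v = f (fun j => v (Fin.succAbove 0 j)) - f (fun j => v (Fin.succAbove 1 j)) +
        f (fun j => v (Fin.succAbove 2 j)) := by
      unfold dd
      rw [Fin.sum_univ_three, show ((0 : Fin 3) : ℕ) = 0 from rfl,
        show ((1 : Fin 3) : ℕ) = 1 from rfl, show ((2 : Fin 3) : ℕ) = 2 from rfl, pow_zero, pow_one,
        one_smul, neg_smul, one_smul, neg_one_sq, one_smul, sub_eq_add_neg]
    rw [e1]
    have s1 : f (fun j => v (Fin.succAbove 0 j)) = χ ((v 1)⁻¹ * v 2) := rfl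
    have s2 : f (fun j => v (Fin.succAbove 1 j)) = χ ((v 0)⁻¹ * v 2) := rfl
    have s3 : f (fun j => v (Fin.succAbove 2 j)) = χ ((v 0)⁻¹ * v 1) := rfl
    rw [s1, s2, s3]
    have e2 : χ ((v 0)⁻¹ * v 2) = χ ((v 0)⁻¹ * v 1) + χ ((v 1)⁻¹ * v 2) := by
      rw [← hmul]
      congr 1
      group
    rw [e2]
    ring
  obtain ⟨h, -, hh2, hh3⟩ := hv f hf1 hf2 hf3
  have hconst : ∀ v : Fin 1 → GG k, h v = h (fun _ => 1) := by
    intro v
    have h6 := hh2 (v 0) (fun _ => 1)
    rw [hsm] at h6
    rw [← h6]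
    congr 1
    funext i
    rw [Subsingleton.elim i 0]
    simp
  have hzero : ∀ σ : GG k, χ σ = 0 := by
    intro σ
    have h7 := hh3 ![1, σ]
    have h8 : f ![1, σ] = χ σ := by simp [f]
    rw [← h8, h7]
    simp only [dd, hconst]
    simp
    left
    rfl
  have hfix : ∀ σ : GG k, σ α = α := by
    intro σ
    by_contra hcon
    exact h01 ((hχ1 _ hcon).symm.trans (hzero σ))
  obtain ⟨x, hx⟩ := (InfiniteGalois.mem_range_algebraMap_iff_fixed (k := k) α).2 hfix
  apply hd x
  apply (algebraMap k (SeparableClosure k)).injective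
  rw [map_add, map_pow, hx, hα']

end Pool.Agent.H195R3.CDQH1
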